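import Pool.Agent.helper11.TX.Spec3

/-!
# Row PRG of project TX: probabilistic selection with a general constant (after PR of helper60)
-/

namespace Pool.Agent.helper11.TX

open Finset

lemma PRG_sum_one {n : ℕ} (X : Fin n → Finset (ℕ × ℤ)) (p : Fin n → ℕ × ℤ → ℝ)
    (h1 : ∀ i, ∑ v ∈ X i, p i v = 1) :
    ∑ f ∈ Fintype.piFinset X, ∏ i, p i (f i) = 1 := by
  rw [← prod_univ_sum X p]
  exact prod_eq_one fun i _ => h1 i

lemma PRG_sum_two {n : ℕ} (X : Fin n → Finset (ℕ × ℤ)) (p : Fin n → ℕ × ℤ → ℝ)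
    (h1 : ∀ i, ∑ v ∈ X i, p i v = 1) {i₀ j₀ : Fin n} (hij : i₀ ≠ j₀) (ψ : ℕ × ℤ → ℕ × ℤ → ℝ) :
    ∑ f ∈ Fintype.piFinset X, (∏ i, p i (f i)) * ψ (f i₀) (f j₀) =
      ∑ v ∈ X i₀, ∑ w ∈ X j₀, p i₀ v * p j₀ w * ψ v w := by
  have hfix : ∀ y ∈ X j₀, ∑ f ∈ Fintype.piFinset X,
      (∏ i, p i (f i)) * (ψ (f i₀) y * (if f j₀ = y then 1 else 0)) =
        (∑ x ∈ X i₀, p i₀ x * ψ x y) * p j₀ y := by
    intro y hy
    have h2 := prod_univ_sum X (fun i x => p i x * ((if i = i₀ then ψ x y else 1) *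
      (if i = j₀ then (if x = y then 1 else 0) else 1)))
    have h3 : ∀ f : Fin n → ℕ × ℤ, ∏ i, p i (f i) * ((if i = i₀ then ψ (f i) y else 1) *
        (if i = j₀ then (if f i = y then (1 : ℝ) else 0) else 1)) =
        (∏ i, p i (f i)) * (ψ (f i₀) y * (if f j₀ = y then 1 else 0)) := by
      intro f
      rw [prod_mul_distrib, prod_mul_distrib, prod_ite_eq' univ i₀ (fun i => ψ (f i) y),
        prod_ite_eq' univ j₀ (fun i => if f i = y then (1 : ℝ) else 0), if_pos (mem_univ _),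
        if_pos (mem_univ _)]
    simp only [h3] at h2
    rw [← h2, ← mul_prod_erase univ _ (mem_univ i₀),
      ← mul_prod_erase (univ.erase i₀) _ (mem_erase.2 ⟨hij.symm, mem_univ j₀⟩)]
    have h4 : ∏ i ∈ (univ.erase i₀).erase j₀, ∑ x ∈ X i, p i x * ((if i = i₀ then ψ x y else 1) *
        (if i = j₀ then (if x = y then (1 : ℝ) else 0) else 1)) = 1 := by
      refine prod_eq_one fun i hi => ?_
      have hne2 : i ≠ j₀ := (mem_erase.1 hi).1
      have hne : i ≠ i₀ := (mem_erase.1 (mem_erase.1 hi).2).1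
      simp only [if_neg hne, if_neg hne2, mul_one]
      exact h1 i
    rw [h4, mul_one]
    congr 1
    · refine sum_congr rfl fun x _ => ?_
      rw [if_pos rfl, if_neg hij, mul_one]
    · simp only [if_neg hij.symm, if_true, one_mul]
      rw [sum_eq_single y]
      · simp
      · intro x _ hx
        simp [hx]
      · intro h
        exact absurd hy h
  rw [sum_comm]
  calc ∑ f ∈ Fintype.piFinset X, (∏ i, p i (f i)) * ψ (f i₀) (f j₀)
      = ∑ f ∈ Fintype.piFinset X, ∑ y ∈ X j₀,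
          (∏ i, p i (f i)) * (ψ (f i₀) y * (if f j₀ = y then 1 else 0)) := by
        refine sum_congr rfl fun f hf => ?_
        rw [← mul_sum]
        congr 1
        rw [sum_eq_single (f j₀)]
        · simp
        · intro y _ hy
          simp [Ne.symm hy]
        · intro h
          exact absurd (Fintype.mem_piFinset.1 hf j₀) h
    _ = ∑ y ∈ X j₀, (∑ x ∈ X i₀, p i₀ x * ψ x y) * p j₀ y := by
        rw [sum_comm]
        exact sum_congr rfl hfix
    _ = _ := by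
        refine sum_congr rfl fun y _ => ?_
        rw [sum_mul]
        exact sum_congr rfl fun x _ => by ring

lemma PRG_diag (A B : Finset (ℕ × ℤ)) (p q : ℕ × ℤ → ℝ) :
    ∑ v ∈ A, ∑ w ∈ B, p v * q w * (if v = w then (1 : ℝ) else 0) = ∑ v ∈ A ∩ B, p v * q v := by
  rw [← filter_mem_eq_inter, sum_filter]
  refine sum_congr rfl fun v _ => ?_
  by_cases h : v ∈ B
  · rw [if_pos h, sum_eq_single v]
    · simp
    · intro w _ hw
      simp [Ne.symm hw]
    · intro h'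
      exact absurd h h'
  · rw [if_neg h]
    refine sum_eq_zero fun w hw => ?_
    rw [if_neg, mul_zero]
    rintro rfl
    exact h hw

lemma PRG_Rl_symm {v w : ℕ × ℤ} (h : Rl v w) : Rl w v := by
  unfold Rl at *
  refine h.mono ?_
  rintro n ⟨h1, h2⟩
  exact ⟨h2, h1⟩

theorem PRG : PRG_stmt := by
  classical
  intro κ m hκ0 hκ1 h W hW h30 ε hε
  by_cases hε4 : κ ≤ ε
  · refine ⟨2, 1, one_pos, ?_⟩
    intro X p hX hp hd
    refine ⟨0, 1, by decide, ?_⟩
    have h2 : 0 ≤ ∑ v ∈ X 0, ∑ w ∈ X 1, if v ≠ w ∧ Rl v w then p 0 v * p 1 w else 0 := by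
      refine sum_nonneg fun v hv => sum_nonneg fun w hw => ?_
      split_ifs
      · exact mul_nonneg (hX 0 v hv).2 (hX 1 w hw).2
      · exact le_rfl
    linarith
  push Not at hε4
  obtain ⟨K, hK⟩ := h W hW h30 (ε / 2) (by positivity)
  obtain ⟨n, hn2, hnK⟩ : ∃ n : ℕ, 2 ≤ n ∧ (K : ℝ) ≤ ε / 4 * n := by
    obtain ⟨m', hm⟩ := exists_nat_ge ((K : ℝ) / (ε / 4))
    refine ⟨m' + 2, by omega, ?_⟩
    rw [div_le_iff₀ (by positivity)] at hm
    push_cast
    nlinarith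
  have hn0 : (0 : ℝ) < n := by exact_mod_cast (by omega : 0 < n)
  refine ⟨n, ε / (8 * (n : ℝ) ^ 2), by positivity, ?_⟩
  intro X p hX hp hd
  by_contra hcon
  push Not at hcon
  set Q : Fin n → Fin n → ℝ := fun i j =>
    ∑ v ∈ X i, ∑ w ∈ X j, if v ≠ w ∧ Rl v w then p i v * p j w else 0 with hQ
  have hQlt : ∀ i j, i < j → Q i j < κ - ε := hcon
  have hQsymm : ∀ i j, Q i j = Q j i := by
    intro i j
    simp only [hQ]
    rw [sum_comm]
    refine sum_congr rfl fun w _ => sum_congr rfl fun v _ => ?_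
    by_cases hc : v ≠ w ∧ Rl v w
    · rw [if_pos hc, if_pos ⟨hc.1.symm, PRG_Rl_symm hc.2⟩]
      ring
    · rw [if_neg hc, if_neg]
      rintro ⟨h1, h2⟩
      exact hc ⟨h1.symm, PRG_Rl_symm h2⟩
  have hQle : ∀ i j, i ≠ j → Q i j ≤ κ - ε := by
    intro i j hij
    rcases lt_or_gt_of_ne hij with h1 | h1
    · exact (hQlt i j h1).le
    · rw [hQsymm]
      exact (hQlt j i h1).le
  set Ω := Fintype.piFinset X with hΩ
  set tw : (Fin n → ℕ × ℤ) → ℝ := fun f => ∏ i, p i (f i) with htw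
  have htw0 : ∀ f ∈ Ω, 0 ≤ tw f := by
    intro f hf
    refine prod_nonneg fun i _ => (hX i _ (Fintype.mem_piFinset.1 hf i)).2
  have htw1 : ∑ f ∈ Ω, tw f = 1 := PRG_sum_one X p hp
  set PP : Finset (Fin n × Fin n) := {q | q.1 ≠ q.2} with hPP
  have hPPc : (#PP : ℝ) ≤ (n : ℝ) ^ 2 := by
    have h2 : #PP ≤ n ^ 2 := by
      refine (card_filter_le _ _).trans (le_of_eq ?_)
      rw [card_univ, Fintype.card_prod, Fintype.card_fin, sq]
    exact_mod_cast h2
  set c₀ : ℝ := (κ - ε / 2) * (n : ℝ) ^ 2 - K * n with hc₀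
  have hc₀1 : (κ - 3 * ε / 4) * (n : ℝ) ^ 2 ≤ c₀ := by
    rw [hc₀]
    nlinarith
  have hc₀0 : 0 ≤ c₀ := by
    refine le_trans ?_ hc₀1
    have : 0 ≤ κ - 3 * ε / 4 := by linarith
    positivity
  -- pointwise
  have hpt : ∀ f ∈ Ω, c₀ * (1 - ∑ q ∈ PP, (if f q.1 = f q.2 then 1 else 0)) ≤
      ∑ q ∈ PP, (if f q.1 ≠ f q.2 ∧ Rl (f q.1) (f q.2) then (1 : ℝ) else 0) := by
    intro f hf
    have hs3 : (0 : ℝ) ≤ ∑ q ∈ PP, (if f q.1 ≠ f q.2 ∧ Rl (f q.1) (f q.2) then (1 : ℝ) else 0) :=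
      sum_nonneg fun i _ => by split_ifs <;> norm_num
    have hs2 : (0 : ℝ) ≤ ∑ q ∈ PP, (if f q.1 = f q.2 then (1 : ℝ) else 0) :=
      sum_nonneg fun i _ => by split_ifs <;> norm_num
    by_cases hb2 : ∃ q ∈ PP, f q.1 = f q.2
    · obtain ⟨q, hq, hi⟩ := hb2
      have h2 : (1 : ℝ) ≤ ∑ q ∈ PP, (if f q.1 = f q.2 then (1 : ℝ) else 0) := by
        have h3 := single_le_sum (f := fun q : Fin n × Fin n => if f q.1 = f q.2 then (1 : ℝ) else 0)
            (fun i _ => by split_ifs <;> norm_num) hq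
        simp only [if_pos hi] at h3
        exact h3
      nlinarith
    · push Not at hb2
      have hinj : Function.Injective f := by
        intro i j hij
        by_contra hne
        exact hb2 (i, j) (by rw [hPP, mem_filter]; exact ⟨mem_univ _, hne⟩) hij
      have h2 : ∑ q ∈ PP, (if f q.1 = f q.2 then (1 : ℝ) else 0) = 0 :=
        sum_eq_zero fun q hq => if_neg (hb2 q hq)
      rw [h2, sub_zero, mul_one]
      have h3 := hK (univ.image f) (by
        intro v hv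
        rw [mem_image] at hv
        obtain ⟨i, _, rfl⟩ := hv
        exact (hX i _ (Fintype.mem_piFinset.1 hf i)).1)
      rw [card_image_of_injective _ hinj, card_univ, Fintype.card_fin] at h3
      refine h3.trans ?_
      rw [sum_boole]
      have h4 : ({p ∈ univ.image f ×ˢ univ.image f | p.1 ≠ p.2 ∧ Rl p.1 p.2} : Finset _) ⊆
          ({q ∈ PP | f q.1 ≠ f q.2 ∧ Rl (f q.1) (f q.2)} : Finset _).image
            (fun q => (f q.1, f q.2)) := by
        rintro ⟨v, w⟩ hvw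
        rw [mem_filter, mem_product] at hvw
        obtain ⟨⟨hv, hw⟩, hne, hr⟩ := hvw
        simp only [mem_image, mem_univ, true_and] at hv hw
        obtain ⟨i, rfl⟩ := hv
        obtain ⟨j, rfl⟩ := hw
        rw [mem_image]
        refine ⟨(i, j), ?_, rfl⟩
        rw [mem_filter, hPP, mem_filter]
        exact ⟨⟨mem_univ _, fun hij => hne (congrArg f hij)⟩, hne, hr⟩
      have h5 := (card_le_card h4).trans card_image_le
      exact_mod_cast h5
  -- averaging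
  have hsum : ∑ f ∈ Ω, tw f * (c₀ * (1 - ∑ q ∈ PP, (if f q.1 = f q.2 then 1 else 0))) ≤
      ∑ f ∈ Ω, tw f * ∑ q ∈ PP, (if f q.1 ≠ f q.2 ∧ Rl (f q.1) (f q.2) then (1 : ℝ) else 0) :=
    sum_le_sum fun f hf => mul_le_mul_of_nonneg_left (hpt f hf) (htw0 f hf)
  have hR : ∑ f ∈ Ω, tw f * ∑ q ∈ PP, (if f q.1 ≠ f q.2 ∧ Rl (f q.1) (f q.2) then (1 : ℝ) else 0) =
      ∑ q ∈ PP, Q q.1 q.2 := by
    simp_rw [mul_sum]
    rw [sum_comm]
    refine sum_congr rfl fun q hq => ?_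
    have hq1 : q.1 ≠ q.2 := by
      rw [hPP, mem_filter] at hq
      exact hq.2
    have h2 := PRG_sum_two X p hp hq1 (fun v w => if v ≠ w ∧ Rl v w then (1 : ℝ) else 0)
    refine h2.trans ?_
    simp only [hQ]
    refine sum_congr rfl fun v _ => sum_congr rfl fun w _ => ?_
    split_ifs
    · rw [mul_one]
    · rw [mul_zero]
  have hL : ∑ f ∈ Ω, tw f * (c₀ * (1 - ∑ q ∈ PP, (if f q.1 = f q.2 then 1 else 0))) =
      c₀ * (1 - ∑ q ∈ PP, ∑ v ∈ X q.1 ∩ X q.2, p q.1 v * p q.2 v) := by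
    have h2 : ∀ q ∈ PP, ∑ f ∈ Ω, tw f * (if f q.1 = f q.2 then (1 : ℝ) else 0) =
        ∑ v ∈ X q.1 ∩ X q.2, p q.1 v * p q.2 v := by
      intro q hq
      have hq1 : q.1 ≠ q.2 := by
        rw [hPP, mem_filter] at hq
        exact hq.2
      have h3 := PRG_sum_two X p hp hq1 (fun v w => if v = w then (1 : ℝ) else 0)
      refine h3.trans ?_
      exact PRG_diag (X q.1) (X q.2) (p q.1) (p q.2)
    have h4 : ∀ f ∈ Ω, tw f * (c₀ * (1 - ∑ q ∈ PP, (if f q.1 = f q.2 then 1 else 0))) =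
        c₀ * tw f - c₀ * ∑ q ∈ PP, tw f * (if f q.1 = f q.2 then (1 : ℝ) else 0) := by
      intro f _
      rw [← mul_sum]
      ring
    rw [sum_congr rfl h4, sum_sub_distrib, ← mul_sum, ← mul_sum, htw1, sum_comm, sum_congr rfl h2]
    ring
  rw [hL, hR] at hsum
  have hI : ∑ q ∈ PP, ∑ v ∈ X q.1 ∩ X q.2, p q.1 v * p q.2 v ≤ ε / 8 := by
    have h2 : ∑ q ∈ PP, ∑ v ∈ X q.1 ∩ X q.2, p q.1 v * p q.2 v ≤
        ∑ q ∈ PP, ε / (8 * (n : ℝ) ^ 2) := by
      refine sum_le_sum fun q hq => ?_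
      rw [hPP, mem_filter] at hq
      exact hd q.1 q.2 hq.2
    refine h2.trans ?_
    rw [sum_const, nsmul_eq_mul]
    refine (mul_le_mul_of_nonneg_right hPPc (by positivity)).trans (le_of_eq ?_)
    field_simp
  have hQs : ∑ q ∈ PP, Q q.1 q.2 ≤ (κ - ε) * (n : ℝ) ^ 2 := by
    have h2 : ∑ q ∈ PP, Q q.1 q.2 ≤ ∑ q ∈ PP, (κ - ε) := by
      refine sum_le_sum fun q hq => ?_
      rw [hPP, mem_filter] at hq
      exact hQle q.1 q.2 hq.2
    refine h2.trans ?_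
    rw [sum_const, nsmul_eq_mul]
    have := mul_le_mul_of_nonneg_right hPPc (by linarith : (0 : ℝ) ≤ κ - ε)
    linarith
  have h6 : c₀ * (1 - ε / 8) ≤
      c₀ * (1 - ∑ q ∈ PP, ∑ v ∈ X q.1 ∩ X q.2, p q.1 v * p q.2 v) :=
    mul_le_mul_of_nonneg_left (by linarith) hc₀0
  have h7 : (κ - 3 * ε / 4) * (n : ℝ) ^ 2 * (1 - ε / 8) ≤ c₀ * (1 - ε / 8) :=
    mul_le_mul_of_nonneg_right hc₀1 (by linarith)
  have h8 : (κ - 3 * ε / 4) * (n : ℝ) ^ 2 * (1 - ε / 8) ≤ (κ - ε) * (n : ℝ) ^ 2 := by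
    linarith
  have h9 : (0 : ℝ) < (n : ℝ) ^ 2 := by positivity
  have h10 : (κ - 3 * ε / 4) * (1 - ε / 8) ≤ κ - ε := by
    refine le_of_mul_le_mul_right ?_ h9
    linarith
  nlinarith

end Pool.Agent.helper11.TX
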